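import Mathlib

/-!
# Down-sets of integer points and their boxes
-/

set_option autoImplicit false

namespace Pool.Agent.V11270.DS

open Finset
open scoped Pointwise

/-- A finite set of points of `ℕ ^ d` (nonnegative integer points) which contains with `x` all the
points `0 ≤ y ≤ x`. -/
def IsDown {d : ℕ} (D : Finset (Fin d → ℤ)) : Prop :=
  (∀ x ∈ D, 0 ≤ x) ∧ ∀ x ∈ D, ∀ y, 0 ≤ y → y ≤ x → y ∈ D

/-- The down-hull: the points `0 ≤ y ≤ x` with `x ∈ X`. -/
noncomputable def downHull {d : ℕ} (X : Finset (Fin d → ℤ)) : Finset (Fin d → ℤ) :=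
  X.biUnion (fun x => Finset.Icc 0 x)

theorem mem_downHull {d : ℕ} {X : Finset (Fin d → ℤ)} {y : Fin d → ℤ} :
    y ∈ downHull X ↔ ∃ x ∈ X, 0 ≤ y ∧ y ≤ x := by
  simp [downHull]

theorem down_downHull {d : ℕ} (X : Finset (Fin d → ℤ)) : IsDown (downHull X) := by
  refine ⟨fun x hx => ?_, fun x hx y h0 hy => ?_⟩
  · obtain ⟨_, _, h, _⟩ := mem_downHull.1 hx
    exact h
  · obtain ⟨z, hz, _, h2⟩ := mem_downHull.1 hx
    exact mem_downHull.2 ⟨z, hz, h0, hy.trans h2⟩

theorem subset_downHull {d : ℕ} {X : Finset (Fin d → ℤ)} (h : ∀ x ∈ X, 0 ≤ x) : X ⊆ downHull X :=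
  fun x hx => mem_downHull.2 ⟨x, hx, h x hx, le_rfl⟩

theorem downHull_of_down {d : ℕ} {D : Finset (Fin d → ℤ)} (h : IsDown D) : downHull D = D := by
  apply Finset.Subset.antisymm
  · intro y hy
    obtain ⟨x, hx, h0, h1⟩ := mem_downHull.1 hy
    exact h.2 x hx y h0 h1
  · exact subset_downHull h.1

/-- A popular sum. -/
theorem popular {Γ : Type*} [AddCommGroup Γ] [DecidableEq Γ] {K : ℝ} {A : Finset Γ}
    (hA : A.Nonempty) (hK : ((A + A).card : ℝ) ≤ K * A.card) :
    ∃ s ∈ A + A, (A.card : ℝ) ≤ K * (A.filter (fun a => s - a ∈ A)).card := by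
  have hAr : (0 : ℝ) < A.card := by exact_mod_cast hA.card_pos
  by_contra hcon
  push Not at hcon
  -- count the pairs
  have h1 : A.card * A.card = ∑ s ∈ A + A, (A.filter (fun a => s - a ∈ A)).card := by
    rw [← Finset.card_product]
    rw [Finset.card_eq_sum_card_fiberwise (f := fun p : Γ × Γ => p.1 + p.2) (t := A + A)]
    · refine Finset.sum_congr rfl fun s _ => ?_
      refine Finset.card_bij (fun p _ => p.1) ?_ ?_ ?_
      · rintro ⟨a, b⟩ hp
        simp only [Finset.mem_filter, Finset.mem_product] at hp ⊢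
        refine ⟨hp.1.1, ?_⟩
        rw [← hp.2, add_sub_cancel_left]
        exact hp.1.2
      · rintro ⟨a, b⟩ hp ⟨a', b'⟩ hp' h
        simp only [Finset.mem_filter, Finset.mem_product] at hp hp'
        simp only at h
        have h2 := hp.2.trans hp'.2.symm
        rw [h] at h2
        have h3 := add_left_cancel h2
        rw [h, h3]
      · intro a ha
        simp only [Finset.mem_filter] at ha
        refine ⟨(a, s - a), ?_, rfl⟩
        simp only [Finset.mem_filter, Finset.mem_product]
        exact ⟨⟨ha.1, ha.2⟩, by abel⟩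
    · rintro ⟨a, b⟩ hp
      simp only [Finset.coe_product, Set.mem_prod, Finset.mem_coe] at hp
      exact Finset.mem_coe.2 (Finset.add_mem_add hp.1 hp.2)
  have hne : (A + A).Nonempty := hA.add hA
  have hK0 : 0 < K := by
    by_contra h
    push Not at h
    have h2 : (0 : ℝ) < (A + A).card := by exact_mod_cast hne.card_pos
    nlinarith
  have h2 : K * ((A.card : ℝ) * A.card) < (A + A).card * A.card := by
    have h3 : ((A.card : ℝ) * A.card) = ∑ s ∈ A + A, ((A.filter (fun a => s - a ∈ A)).card : ℝ) := by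
      exact_mod_cast h1
    rw [h3, Finset.mul_sum]
    calc ∑ s ∈ A + A, K * ((A.filter (fun a => s - a ∈ A)).card : ℝ)
        < ∑ _s ∈ A + A, (A.card : ℝ) := Finset.sum_lt_sum_of_nonempty hne (fun s hs => hcon s hs)
      _ = (A + A).card * A.card := by rw [Finset.sum_const, nsmul_eq_mul]
  have h4 : ((A + A).card : ℝ) * A.card ≤ K * A.card * A.card :=
    mul_le_mul_of_nonneg_right hK hAr.le
  linarith

/-- The inequality of Harris and Kleitman (Daykin) for a down-set and its reflection. -/
theorem box_bound {d : ℕ} {D : Finset (Fin d → ℤ)} (hD : IsDown D) (s : Fin d → ℤ) :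
    (Finset.Icc 0 s).card * (D.filter (fun x => s - x ∈ D)).card ≤ D.card * D.card := by
  classical
  set E := D.filter (fun x => s - x ∈ D) with hE
  have h1 := Finset.le_card_infs_mul_card_sups (Finset.Icc 0 s) E
  refine h1.trans (Nat.mul_le_mul ?_ ?_)
  · refine Finset.card_le_card ?_
    intro z hz
    obtain ⟨x, hx, e, he, rfl⟩ := Finset.mem_infs.1 hz
    rw [Finset.mem_Icc] at hx
    have he' := Finset.mem_filter.1 he
    exact hD.2 e he'.1 _ (le_inf hx.1 (hD.1 e he'.1)) inf_le_right
  · refine Finset.card_le_card_of_injOn (fun z => s - z) ?_ ?_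
    · intro z hz
      obtain ⟨x, hx, e, he, rfl⟩ := Finset.mem_sups.1 (Finset.mem_coe.1 hz)
      rw [Finset.mem_Icc] at hx
      have he' := Finset.mem_filter.1 he
      have hes : e ≤ s := by
        have := hD.1 _ he'.2
        exact sub_nonneg.1 this
      refine Finset.mem_coe.2 (hD.2 _ he'.2 _ ?_ ?_)
      · exact sub_nonneg.2 (sup_le hx.2 hes)
      · exact sub_le_sub_left le_sup_right s
    · intro a _ b _ h
      exact sub_right_injective h

end Pool.Agent.V11270.DS
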