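import Pool.Agent.V11270.DS.A

/-!
# A down-set with small doubling contains a large box of small dimension
-/

set_option autoImplicit false

namespace Pool.Agent.V11270.DS

open Finset
open scoped Pointwise

theorem card_Icc_zero {d : ℕ} {s : Fin d → ℤ} (hs : 0 ≤ s) :
    ((Finset.Icc 0 s).card : ℝ) = ∏ i, ((s i : ℝ) + 1) := by
  rw [Pi.card_Icc, Nat.cast_prod]
  refine Finset.prod_congr rfl fun i _ => ?_
  rw [Int.card_Icc]
  have h : 0 ≤ s i := hs i
  have h2 : (((s i + 1 - (0 : Fin d → ℤ) i).toNat : ℤ) : ℝ) = ((s i + 1 : ℤ) : ℝ) := by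
    rw [Int.toNat_of_nonneg]
    · simp
    · simp only [Pi.zero_apply]; omega
  have h3 : (((s i + 1 - (0 : Fin d → ℤ) i).toNat : ℕ) : ℝ) = ((s i + 1 : ℤ) : ℝ) := by
    rw [← h2]; norm_cast
  rw [h3]; push_cast; ring

/-- The box below a sum of two elements of a down-set is contained in the sumset. -/
theorem box_subset {d : ℕ} {D : Finset (Fin d → ℤ)} (hD : IsDown D) {s : Fin d → ℤ}
    (hs : s ∈ D + D) : Finset.Icc 0 s ⊆ D + D := by
  obtain ⟨a, ha, b, hb, rfl⟩ := Finset.mem_add.1 hs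
  intro x hx
  rw [Finset.mem_Icc] at hx
  have ha0 := hD.1 a ha
  have hb0 := hD.1 b hb
  refine Finset.mem_add.2 ⟨x ⊓ a, hD.2 a ha _ (le_inf hx.1 ha0) inf_le_right, x - x ⊓ a,
    hD.2 b hb _ (sub_nonneg.2 inf_le_left) ?_, by abel⟩
  intro i
  have h1 : x i ≤ a i + b i := hx.2 i
  have h2 : (0 : ℤ) ≤ b i := hb0 i
  simp only [Pi.sub_apply, Pi.inf_apply]
  rcases le_total (x i) (a i) with h | h
  · rw [inf_eq_left.2 h]; omega
  · rw [inf_eq_right.2 h]; omega

/-- multiples of a box -/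
theorem box_three {d : ℕ} {s : Fin d → ℤ} (hs : 0 ≤ s) :
    Finset.Icc 0 (3 • s) ⊆ Finset.Icc 0 s + Finset.Icc 0 s + Finset.Icc 0 s := by
  intro x hx
  rw [Finset.mem_Icc] at hx
  refine Finset.mem_add.2 ⟨x ⊓ s + (x - x ⊓ s) ⊓ s, Finset.add_mem_add ?_ ?_,
    x - (x ⊓ s + (x - x ⊓ s) ⊓ s), ?_, by abel⟩
  · exact Finset.mem_Icc.2 ⟨le_inf hx.1 hs, inf_le_right⟩
  · exact Finset.mem_Icc.2 ⟨le_inf (sub_nonneg.2 inf_le_left) hs, inf_le_right⟩
  · refine Finset.mem_Icc.2 ⟨fun i => ?_, fun i => ?_⟩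
    · simp only [Pi.sub_apply, Pi.inf_apply, Pi.add_apply, Pi.zero_apply]
      have h0 : (0 : ℤ) ≤ x i := hx.1 i
      have h1 : (0 : ℤ) ≤ s i := hs i
      omega
    · simp only [Pi.sub_apply, Pi.inf_apply, Pi.add_apply]
      have h0 : (0 : ℤ) ≤ x i := hx.1 i
      have h1 : (0 : ℤ) ≤ s i := hs i
      have h2 : x i ≤ 3 * s i := by
        have := hx.2 i
        simpa using this
      omega

theorem nsmul_bound {Γ : Type*} [AddCommGroup Γ] [DecidableEq Γ] {K : ℝ} {A : Finset Γ}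
    (hA : A.Nonempty) (hK : ((A + A).card : ℝ) ≤ K * A.card) (n : ℕ) :
    ((n • A).card : ℝ) ≤ K ^ n * A.card := by
  have hAr : (0 : ℝ) < A.card := by exact_mod_cast hA.card_pos
  have h := Finset.pluennecke_ruzsa_inequality_nsmul_add hA A n
  have h1 : ((n • A).card : ℝ) ≤ (((A + A).card : ℝ) / A.card) ^ n * A.card := by
    have h2 := (NNRat.cast_le (K := ℝ)).2 h
    push_cast at h2
    exact h2
  refine h1.trans (mul_le_mul_of_nonneg_right ?_ hAr.le)
  refine pow_le_pow_left₀ (by positivity) ?_ n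
  rw [div_le_iff₀ hAr]
  exact hK

/-- dimension of the box -/
theorem dim_bound {d : ℕ} {D : Finset (Fin d → ℤ)} (hD : IsDown D) (hne : D.Nonempty) {K : ℝ}
    (hK1 : 1 ≤ K) (hK : ((D + D).card : ℝ) ≤ K * D.card) {s : Fin d → ℤ} (hs : s ∈ D + D)
    (hcard : (D.card : ℝ) ≤ K * (Finset.Icc 0 s).card) :
    (2 : ℝ) ^ (Finset.univ.filter (fun i => s i ≠ 0)).card ≤ K ^ 7 := by
  have hs0 : 0 ≤ s := by
    obtain ⟨a, ha, b, hb, rfl⟩ := Finset.mem_add.1 hs
    exact add_nonneg (hD.1 a ha) (hD.1 b hb)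
  have hbox := box_subset hD hs
  have h3 : Finset.Icc 0 (3 • s) ⊆ 6 • D := by
    refine (box_three hs0).trans ?_
    refine (Finset.add_subset_add (Finset.add_subset_add hbox hbox) hbox).trans ?_
    intro x hx
    have e : (6 : ℕ) • D = (D + D) + (D + D) + (D + D) := by
      simp only [show (6 : ℕ) = 5 + 1 by rfl, show (5 : ℕ) = 4 + 1 by rfl, show (4 : ℕ) = 3 + 1 by rfl,
        show (3 : ℕ) = 2 + 1 by rfl, show (2 : ℕ) = 1 + 1 by rfl, add_smul, one_smul]
      simp only [add_assoc]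
    rw [e]
    exact hx
  have h4 : ((Finset.Icc 0 (3 • s)).card : ℝ) ≤ K ^ 6 * D.card :=
    (by exact_mod_cast Finset.card_le_card h3 : ((Finset.Icc 0 (3 • s)).card : ℝ) ≤ (6 • D).card).trans
      (nsmul_bound hne hK 6)
  have h5 : ((Finset.Icc 0 (3 • s)).card : ℝ) = ∏ i, (3 * (s i : ℝ) + 1) := by
    rw [card_Icc_zero (nsmul_nonneg hs0 3)]
    refine Finset.prod_congr rfl fun i _ => ?_
    simp
  have h6 : (2 : ℝ) ^ (Finset.univ.filter (fun i => s i ≠ 0)).card * ∏ i, ((s i : ℝ) + 1) ≤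
      ∏ i, (3 * (s i : ℝ) + 1) := by
    rw [← Finset.prod_const, Finset.prod_filter, ← Finset.prod_mul_distrib]
    refine Finset.prod_le_prod (fun i _ => ?_) (fun i _ => ?_)
    · have : (0 : ℤ) ≤ s i := hs0 i
      have h : (0 : ℝ) ≤ s i := by exact_mod_cast this
      split_ifs <;> positivity
    · have : (0 : ℤ) ≤ s i := hs0 i
      split_ifs with h
      · have h1 : (1 : ℤ) ≤ s i := by omega
        have h1r : (1 : ℝ) ≤ s i := by exact_mod_cast h1
        linarith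
      · have h1 : (0 : ℝ) ≤ s i := by exact_mod_cast this
        linarith
  have hpos : (0 : ℝ) < (Finset.Icc 0 s).card := by
    have : (0 : ℝ) < D.card := by exact_mod_cast hne.card_pos
    by_contra h
    push Not at h
    nlinarith
  rw [← card_Icc_zero hs0, ← h5] at h6
  have h7 : (2 : ℝ) ^ (Finset.univ.filter (fun i => s i ≠ 0)).card * (Finset.Icc 0 s).card ≤
      K ^ 7 * (Finset.Icc 0 s).card := by
    calc _ ≤ _ := h6
      _ ≤ K ^ 6 * D.card := h4
      _ ≤ K ^ 6 * (K * (Finset.Icc 0 s).card) := mul_le_mul_of_nonneg_left hcard (by positivity)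
      _ = K ^ 7 * (Finset.Icc 0 s).card := by ring
  exact le_of_mul_le_mul_right h7 hpos

/-- sum of `1 / √(j + 1)` -/
theorem sum_sqrt (m : ℕ) : ∑ j ∈ Finset.range (m + 1), 1 / Real.sqrt ((j : ℝ) + 1) ≤
    2 * Real.sqrt ((m : ℝ) + 1) := by
  induction m with
  | zero => norm_num
  | succ m ih =>
    rw [Finset.sum_range_succ]
    have h1 : 0 < Real.sqrt ((m : ℝ) + 1) := Real.sqrt_pos.2 (by positivity)
    have h2 : 0 < Real.sqrt ((m : ℝ) + 1 + 1) := Real.sqrt_pos.2 (by positivity)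
    have h3 : Real.sqrt ((m : ℝ) + 1) ^ 2 = (m : ℝ) + 1 := Real.sq_sqrt (by positivity)
    have h4 : Real.sqrt ((m : ℝ) + 1 + 1) ^ 2 = (m : ℝ) + 1 + 1 := Real.sq_sqrt (by positivity)
    have h5 : Real.sqrt ((m : ℝ) + 1) ≤ Real.sqrt ((m : ℝ) + 1 + 1) := Real.sqrt_le_sqrt (by linarith)
    push_cast
    have h6 : 1 / Real.sqrt ((m : ℝ) + 1 + 1) ≤
        2 * Real.sqrt ((m : ℝ) + 1 + 1) - 2 * Real.sqrt ((m : ℝ) + 1) := by
      rw [div_le_iff₀ h2]
      nlinarith
    linarith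

/-- The mean of the inverse square roots of the sizes of the boxes `[0, a]`, `a ≤ s`. -/
theorem mean_bound {d : ℕ} {s : Fin d → ℤ} (hs : 0 ≤ s) :
    ∑ a ∈ Finset.Icc 0 s, ∏ i, Real.sqrt (((s i : ℝ) + 1) / ((a i : ℝ) + 1)) ≤
      2 ^ (Finset.univ.filter (fun i => s i ≠ 0)).card * ∏ i, ((s i : ℝ) + 1) := by
  classical
  have e1 : Finset.Icc 0 s = Fintype.piFinset (fun i => Finset.Icc (0 : ℤ) (s i)) := by
    ext a
    simp only [Finset.mem_Icc, Fintype.mem_piFinset]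
    constructor
    · rintro ⟨h1, h2⟩ i
      exact ⟨h1 i, h2 i⟩
    · intro h
      exact ⟨fun i => (h i).1, fun i => (h i).2⟩
  rw [e1, ← Finset.prod_univ_sum (fun i => Finset.Icc (0 : ℤ) (s i))
    (fun i (x : ℤ) => Real.sqrt (((s i : ℝ) + 1) / ((x : ℝ) + 1)))]
  rw [← Finset.prod_const, Finset.prod_filter, ← Finset.prod_mul_distrib]
  refine Finset.prod_le_prod (fun i _ => Finset.sum_nonneg fun x _ => Real.sqrt_nonneg _)
    (fun i _ => ?_)
  have h0 : (0 : ℤ) ≤ s i := hs i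
  obtain ⟨m, hm⟩ := Int.eq_ofNat_of_zero_le h0
  have e2 : ∑ x ∈ Finset.Icc (0 : ℤ) (s i), Real.sqrt (((s i : ℝ) + 1) / ((x : ℝ) + 1)) =
      ∑ j ∈ Finset.range (m + 1), Real.sqrt (((m : ℝ) + 1) / ((j : ℝ) + 1)) := by
    rw [hm]
    symm
    refine Finset.sum_bij (fun j _ => (j : ℤ)) ?_ ?_ ?_ ?_
    · intro j hj
      rw [Finset.mem_range] at hj
      rw [Finset.mem_Icc]
      constructor
      · positivity
      · omega
    · intro a _ b _ h
      exact_mod_cast h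
    · intro x hx
      rw [Finset.mem_Icc] at hx
      refine ⟨x.toNat, ?_, ?_⟩
      · rw [Finset.mem_range]; omega
      · show ((x.toNat : ℕ) : ℤ) = x
        omega
    · intro j _
      simp
  rw [e2]
  split_ifs with h
  · have h1 : ∑ j ∈ Finset.range (m + 1), Real.sqrt (((m : ℝ) + 1) / ((j : ℝ) + 1)) =
        Real.sqrt ((m : ℝ) + 1) * ∑ j ∈ Finset.range (m + 1), 1 / Real.sqrt ((j : ℝ) + 1) := by
      rw [Finset.mul_sum]
      refine Finset.sum_congr rfl fun j _ => ?_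
      rw [Real.sqrt_div (by positivity)]
      ring
    rw [h1]
    have h2 := mul_le_mul_of_nonneg_left (sum_sqrt m) (Real.sqrt_nonneg ((m : ℝ) + 1))
    have h3 : Real.sqrt ((m : ℝ) + 1) * Real.sqrt ((m : ℝ) + 1) = (m : ℝ) + 1 :=
      Real.mul_self_sqrt (by positivity)
    have h4 : ((s i : ℤ) : ℝ) = m := by rw [hm]; simp
    rw [h4]
    nlinarith
  · push Not at h
    have h5 : m = 0 := by
      rw [hm] at h
      simpa using h
    subst h5
    simp [h]

/-- **A down-set with small doubling contains a large box of small dimension.** -/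
theorem down_box {d : ℕ} {D : Finset (Fin d → ℤ)} (hD : IsDown D) (hne : D.Nonempty) {K : ℝ}
    (hK : ((D + D).card : ℝ) ≤ K * D.card) :
    ∃ a ∈ D, (D.card : ℝ) ≤ K ^ 19 * (Finset.Icc 0 a).card ∧
      (2 : ℝ) ^ (Finset.univ.filter (fun i => a i ≠ 0)).card ≤ K ^ 7 := by
  classical
  have hDr : (0 : ℝ) < D.card := by exact_mod_cast hne.card_pos
  have hK1 : 1 ≤ K := by
    have h1 : (D.card : ℝ) ≤ (D + D).card := by
      exact_mod_cast Finset.card_le_card_add_right hne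
    nlinarith
  have hK0 : 0 < K := by linarith
  obtain ⟨s, hs, hpop⟩ := popular hne hK
  set E := D.filter (fun a => s - a ∈ D) with hE
  have hs0 : 0 ≤ s := by
    obtain ⟨a, ha, b, hb, rfl⟩ := Finset.mem_add.1 hs
    exact add_nonneg (hD.1 a ha) (hD.1 b hb)
  have hEs : E ⊆ Finset.Icc 0 s := by
    intro x hx
    have hx' := Finset.mem_filter.1 hx
    rw [Finset.mem_Icc]
    exact ⟨hD.1 x hx'.1, sub_nonneg.1 (hD.1 _ hx'.2)⟩
  have hEc : (E.card : ℝ) ≤ (Finset.Icc 0 s).card := by exact_mod_cast Finset.card_le_card hEs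
  have hcard : (D.card : ℝ) ≤ K * (Finset.Icc 0 s).card :=
    hpop.trans (mul_le_mul_of_nonneg_left hEc hK0.le)
  have hbox : ((Finset.Icc 0 s).card : ℝ) ≤ K * D.card :=
    (by exact_mod_cast Finset.card_le_card (box_subset hD hs) :
      ((Finset.Icc 0 s).card : ℝ) ≤ (D + D).card).trans hK
  have hdim := dim_bound hD hne hK1 hK hs hcard
  set w := (Finset.univ.filter (fun i => s i ≠ 0)).card with hw
  have hEpos : (0 : ℝ) < E.card := by
    by_contra h
    push Not at h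
    nlinarith
  -- a large box
  have key : ∃ a ∈ E, ∏ i, Real.sqrt (((s i : ℝ) + 1) / ((a i : ℝ) + 1)) ≤ K ^ 9 := by
    by_contra hcon
    push Not at hcon
    have h1 : (E.card : ℝ) * K ^ 9 < ∑ a ∈ E, ∏ i, Real.sqrt (((s i : ℝ) + 1) / ((a i : ℝ) + 1)) := by
      rw [← nsmul_eq_mul, ← Finset.sum_const]
      refine Finset.sum_lt_sum_of_nonempty ?_ (fun a ha => hcon a ha)
      rw [← Finset.card_pos]
      exact_mod_cast hEpos
    have h2 : ∑ a ∈ E, ∏ i, Real.sqrt (((s i : ℝ) + 1) / ((a i : ℝ) + 1)) ≤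
        ∑ a ∈ Finset.Icc 0 s, ∏ i, Real.sqrt (((s i : ℝ) + 1) / ((a i : ℝ) + 1)) :=
      Finset.sum_le_sum_of_subset_of_nonneg hEs
        (fun a _ _ => Finset.prod_nonneg fun i _ => Real.sqrt_nonneg _)
    have h3 := mean_bound hs0
    rw [← card_Icc_zero hs0] at h3
    have h4 : (2 : ℝ) ^ w * (Finset.Icc 0 s).card ≤ K ^ 9 * E.card := by
      calc (2 : ℝ) ^ w * (Finset.Icc 0 s).card ≤ K ^ 7 * (K * D.card) :=
            mul_le_mul hdim hbox (by positivity) (by positivity)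
        _ ≤ K ^ 7 * (K * (K * E.card)) :=
          mul_le_mul_of_nonneg_left (mul_le_mul_of_nonneg_left hpop hK0.le) (by positivity)
        _ = K ^ 9 * E.card := by ring
    linarith
  obtain ⟨a, ha, hle⟩ := key
  have ha' := Finset.mem_filter.1 ha
  have ha0 := hD.1 a ha'.1
  have has : a ≤ s := sub_nonneg.1 (hD.1 _ ha'.2)
  refine ⟨a, ha'.1, ?_, ?_⟩
  · have h1 : ∏ i, (((s i : ℝ) + 1) / ((a i : ℝ) + 1)) ≤ K ^ 18 := by
      have h2 : ∏ i, (((s i : ℝ) + 1) / ((a i : ℝ) + 1)) =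
          (∏ i, Real.sqrt (((s i : ℝ) + 1) / ((a i : ℝ) + 1))) ^ 2 := by
        rw [← Finset.prod_pow]
        refine Finset.prod_congr rfl fun i _ => ?_
        have h3 : (0 : ℤ) ≤ s i := hs0 i
        have h4 : (0 : ℤ) ≤ a i := ha0 i
        have h3' : (0 : ℝ) ≤ s i := by exact_mod_cast h3
        have h4' : (0 : ℝ) ≤ a i := by exact_mod_cast h4
        rw [Real.sq_sqrt (by positivity)]
      rw [h2, show (18 : ℕ) = 9 * 2 by norm_num, pow_mul]
      exact pow_le_pow_left₀ (Finset.prod_nonneg fun i _ => Real.sqrt_nonneg _) hle 2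
    rw [Finset.prod_div_distrib, ← card_Icc_zero hs0, ← card_Icc_zero ha0] at h1
    have hapos : (0 : ℝ) < (Finset.Icc 0 a).card := by
      have : (0 : Fin d → ℤ) ∈ Finset.Icc 0 a := Finset.mem_Icc.2 ⟨le_rfl, ha0⟩
      exact_mod_cast Finset.card_pos.2 ⟨_, this⟩
    rw [div_le_iff₀ hapos] at h1
    calc (D.card : ℝ) ≤ K * (Finset.Icc 0 s).card := hcard
      _ ≤ K * (K ^ 18 * (Finset.Icc 0 a).card) := mul_le_mul_of_nonneg_left h1 hK0.le
      _ = K ^ 19 * (Finset.Icc 0 a).card := by ring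
  · refine le_trans ?_ hdim
    refine pow_le_pow_right₀ (by norm_num) (Finset.card_le_card ?_)
    intro i hi
    rw [Finset.mem_filter] at hi ⊢
    refine ⟨hi.1, fun h0 => hi.2 ?_⟩
    have h1 : (0 : ℤ) ≤ a i := ha0 i
    have h2 : a i ≤ s i := has i
    have h3 : s i = 0 := h0
    omega

end Pool.Agent.V11270.DS
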