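import Pool.Agent.V11270.DS.B
import Pool.Agent.Y806.DF.D

/-!
# Covering of sets which are dense in a down-set, in a convex set, or in a set with Kleitman's property
-/

set_option autoImplicit false

namespace Pool.Agent.V11270.DS

open Finset
open scoped Pointwise
open Pool.Agent.Y806.DF

/-- Kleitman's property with the constant `M`: for every `s`, the part of `U` that is symmetric with
respect to `s / 2` has few integer points in its convex hull. -/
def Klei {d : ℕ} (M : ℝ) (U : Finset (Fin d → ℤ)) : Prop :=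
  ∀ s, ((hull (U.filter (fun u => s - u ∈ U))).ncard : ℝ) * (U.filter (fun u => s - u ∈ U)).card ≤
    M * (U.card : ℝ) ^ 2

/-- The hypotheses: a coset progression of arbitrary dimension. -/
structure KData {Γ : Type*} [AddCommGroup Γ] [DecidableEq Γ] (K : ℝ) (A : Finset Γ) {d : ℕ}
    (U X : Finset (Fin d → ℤ)) (ψ : (Fin d → ℤ) →+ Γ) (H : AddSubgroup Γ) (g : Γ) : Prop where
  ne : X.Nonempty
  fin : Finite H
  klei : Klei K U
  sub : X ⊆ U
  dense : (U.card : ℝ) ≤ K * X.card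
  doubling : ((X + X).card : ℝ) ≤ K * X.card
  size : (X.card : ℝ) * Nat.card H ≤ K * A.card
  meet : (A.card : ℝ) ≤ K * ({a : Γ | a ∈ A ∧ ∃ x ∈ X, ∃ h ∈ H, a = g + ψ x + h}.ncard : ℝ)

theorem hull_mono {d : ℕ} {X Y : Finset (Fin d → ℤ)} (h : X ⊆ Y) : hull X ⊆ hull Y :=
  lat_mono (convexHull_mono (Set.image_mono (Finset.coe_subset.2 h)))

theorem to_data {Γ : Type*} [AddCommGroup Γ] [DecidableEq Γ] {K : ℝ} {A : Finset Γ}
    (hA : A.Nonempty) (hK1 : 1 ≤ K) {d : ℕ} {U X : Finset (Fin d → ℤ)} {ψ : (Fin d → ℤ) →+ Γ}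
    {H : AddSubgroup Γ} {g : Γ} (hD : KData K A U X ψ H g) :
    ∃ (r : ℕ) (X' : Finset (Fin r → ℤ)) (ψ' : (Fin r → ℤ) →+ Γ) (g' : Γ),
      Data (4096 * K ^ 23700) A X' ψ' H g' := by
  classical
  have hK0 : 0 < K := by linarith
  have hXr : (0 : ℝ) < X.card := by exact_mod_cast hD.ne.card_pos
  obtain ⟨s, -, hpop⟩ := popular hD.ne hD.doubling
  set Z := X.filter (fun a => s - a ∈ X) with hZ
  have hZr : (0 : ℝ) < Z.card := by
    by_contra h
    push Not at h
    nlinarith
  have hZne : Z.Nonempty := Finset.card_pos.1 (by exact_mod_cast hZr)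
  have hZX : Z ⊆ X := Finset.filter_subset _ _
  set E := U.filter (fun u => s - u ∈ U) with hE
  have hZE : Z ⊆ E := by
    intro x hx
    have h := Finset.mem_filter.1 hx
    exact Finset.mem_filter.2 ⟨hD.sub h.1, hD.sub h.2⟩
  -- the hull of `Z`
  have hhull : ((hull Z).ncard : ℝ) ≤ K ^ 5 * Z.card := by
    have h1 : ((hull Z).ncard : ℝ) ≤ (hull E).ncard := by
      exact_mod_cast Set.ncard_le_ncard (hull_mono hZE) (hull_finite E)
    have h2 : ((hull E).ncard : ℝ) * Z.card ≤ K * (U.card : ℝ) ^ 2 := by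
      have h3 := hD.klei s
      rw [← hE] at h3
      refine le_trans (mul_le_mul_of_nonneg_left ?_ (Nat.cast_nonneg _)) h3
      exact_mod_cast Finset.card_le_card hZE
    have h4 : (U.card : ℝ) ≤ K * (K * Z.card) :=
      hD.dense.trans (mul_le_mul_of_nonneg_left hpop hK0.le)
    have h5 : ((hull E).ncard : ℝ) * Z.card ≤ (K ^ 5 * Z.card) * Z.card := by
      calc _ ≤ K * (U.card : ℝ) ^ 2 := h2
        _ ≤ K * (K * (K * Z.card)) ^ 2 := by
          refine mul_le_mul_of_nonneg_left (pow_le_pow_left₀ (Nat.cast_nonneg _) h4 2) hK0.le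
        _ = (K ^ 5 * Z.card) * Z.card := by ring
    exact h1.trans (le_of_mul_le_mul_right h5 hZr)
  have hZZ : ((Z + Z).card : ℝ) ≤ K ^ 5 * Z.card := by
    calc ((Z + Z).card : ℝ) ≤ (X + X).card := by
          exact_mod_cast Finset.card_le_card (Finset.add_subset_add hZX hZX)
      _ ≤ K * X.card := hD.doubling
      _ ≤ K * (K * Z.card) := mul_le_mul_of_nonneg_left hpop hK0.le
      _ = K ^ 2 * Z.card := by ring
      _ ≤ K ^ 5 * Z.card :=
        mul_le_mul_of_nonneg_right (pow_le_pow_right₀ hK1 (by norm_num)) hZr.le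
  obtain ⟨r, φ, B, F, hr, hB, hnum, hF, hcov⟩ := struct Z hZne (one_le_pow₀ hK1) hZZ hhull
  have hpb := pow_bound (one_le_pow₀ hK1 (n := 5)) hr
  -- the covering of `X`
  have hXZ : ((X + Z).card : ℝ) ≤ K ^ 2 * Z.card := by
    calc ((X + Z).card : ℝ) ≤ (X + X).card := by
          exact_mod_cast Finset.card_le_card (Finset.add_subset_add_left hZX)
      _ ≤ K * X.card := hD.doubling
      _ ≤ K * (K * Z.card) := mul_le_mul_of_nonneg_left hpop hK0.le
      _ = K ^ 2 * Z.card := by ring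
  obtain ⟨T, -, hT, hTcov⟩ := Finset.ruzsa_covering_add hZne hXZ
  set I := T + (F - F) with hI
  have hIcard : (I.card : ℝ) ≤ K ^ 3722 * 16 ^ r := by
    have h1 : (I.card : ℝ) ≤ T.card * (F.card * F.card) := by
      have h2 : I.card ≤ T.card * (F - F).card := Finset.card_add_le
      have h3 : (F - F).card ≤ F.card * F.card := Finset.card_sub_le
      exact_mod_cast h2.trans (Nat.mul_le_mul_left _ h3)
    calc (I.card : ℝ) ≤ T.card * (F.card * F.card) := h1
      _ ≤ K ^ 2 * (((K ^ 5) ^ 372 * 4 ^ r) * ((K ^ 5) ^ 372 * 4 ^ r)) := by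
        refine mul_le_mul hT (mul_le_mul hF hF (Nat.cast_nonneg _) (by positivity)) (by positivity)
          (by positivity)
      _ = K ^ 3722 * 16 ^ r := by
        have e : (16 : ℝ) ^ r = 4 ^ r * 4 ^ r := by rw [← mul_pow]; norm_num
        rw [e]
        generalize (4 : ℝ) ^ r = u
        ring
  have h16 : (16 : ℝ) ^ r ≤ 4096 * K ^ 19965 := by
    calc (16 : ℝ) ^ r ≤ 4096 ^ r := pow_le_pow_left₀ (by norm_num) (by norm_num) r
      _ ≤ 4096 * (K ^ 5) ^ 3993 := hpb
      _ = 4096 * K ^ 19965 := by rw [← pow_mul]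
  have hfin : (lat ((4 : ℝ) • B)).Finite := hB.finite 4
  have hcardX : hfin.toFinset.card = num B 4 := by
    rw [num, Set.ncard_eq_toFinset_card _ hfin]
  have hn4 : num B 4 ≤ 16 ^ r * num B 1 := by
    have h1 := num_double hB (t := 1) (by norm_num)
    have h2 := num_double hB (t := 2) (by norm_num)
    rw [mul_one] at h1
    rw [show (2 : ℝ) * 2 = 4 by norm_num] at h2
    calc num B 4 ≤ 4 ^ r * num B 2 := h2
      _ ≤ 4 ^ r * (4 ^ r * num B 1) := Nat.mul_le_mul_left _ h1
      _ = 16 ^ r * num B 1 := by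
        rw [← mul_assoc, ← mul_pow]
        norm_num
  have hn8 : num B 8 ≤ 4 ^ r * num B 4 := by
    have h2 := num_double hB (t := 4) (by norm_num)
    rw [show (2 : ℝ) * 4 = 8 by norm_num] at h2
    exact h2
  have hone : (1 : ℝ) ≤ 4096 * K ^ 23700 := by
    have := one_le_pow₀ hK1 (n := 23700)
    linarith
  -- the popular translate
  set A1 := A.filter (fun a => ∃ x ∈ X, ∃ h ∈ H, a = g + ψ x + h) with hA1
  have hmeet : (A.card : ℝ) ≤ K * A1.card := by
    have h1 := hD.meet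
    have h2 : {a : Γ | a ∈ A ∧ ∃ x ∈ X, ∃ h ∈ H, a = g + ψ x + h} = (A1 : Set Γ) := by
      ext a
      rw [hA1, Finset.coe_filter]
    rw [h2, Set.ncard_coe_finset] at h1
    exact h1
  have hAr : (0 : ℝ) < A.card := by exact_mod_cast hA.card_pos
  have hA1ne : A1.Nonempty := by
    rw [← Finset.card_pos]
    by_contra h
    have h0 : A1.card = 0 := by omega
    rw [h0, Nat.cast_zero, mul_zero] at hmeet
    linarith
  obtain ⟨p, hp, hp2⟩ := pigeon I A A1 hA1ne
    (fun p a => ∃ w ∈ hfin.toFinset, ∃ h ∈ H, a = (g + ψ p) + (ψ.comp φ) w + h)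
    (Finset.filter_subset _ _) (by
      intro a ha
      obtain ⟨x, hx, h, hh, rfl⟩ := (Finset.mem_filter.1 ha).2
      obtain ⟨t, ht, z, hz, rfl⟩ := Finset.mem_add.1 (hTcov hx)
      obtain ⟨z₁, hz₁, z₂, hz₂, rfl⟩ := Finset.mem_sub.1 hz
      obtain ⟨f₁, hf₁, w₁, hw₁, rfl⟩ := hcov z₁ hz₁
      obtain ⟨f₂, hf₂, w₂, hw₂, rfl⟩ := hcov z₂ hz₂
      refine ⟨t + (f₁ - f₂), Finset.add_mem_add ht (Finset.sub_mem_sub hf₁ hf₂), w₁ - w₂, ?_, h, hh, ?_⟩
      · rw [Set.Finite.mem_toFinset]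
        have h1 := hB.sub (by norm_num) (by norm_num) hw₁ hw₂
        rwa [show (2 : ℝ) + 2 = 4 by norm_num] at h1
      · simp only [map_add, map_sub, AddMonoidHom.coe_comp, Function.comp_apply]
        abel)
  refine ⟨r, hfin.toFinset, ψ.comp φ, g + ψ p, ⟨?_, hD.fin, ?_, ?_, ?_, ?_⟩⟩
  · refine ⟨0, ?_⟩
    rw [Set.Finite.mem_toFinset]
    show re 0 ∈ (4 : ℝ) • B
    have : re (0 : Fin r → ℤ) = 0 := by funext i; simp [re]
    rw [this]
    exact (hB.smul 4).zero
  · have h1 : (hfin.toFinset + hfin.toFinset).card ≤ num B 8 := by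
      rw [num, Set.ncard_eq_toFinset_card _ (hB.finite 8)]
      refine Finset.card_le_card ?_
      intro x hx
      obtain ⟨a, ha, b, hb, rfl⟩ := Finset.mem_add.1 hx
      rw [Set.Finite.mem_toFinset] at ha hb ⊢
      have h2 := hB.add (by norm_num) (by norm_num) ha hb
      rwa [show (4 : ℝ) + 4 = 8 by norm_num] at h2
    have h2 : ((hfin.toFinset + hfin.toFinset).card : ℝ) ≤ 4 ^ r * hfin.toFinset.card := by
      rw [hcardX]
      exact_mod_cast h1.trans hn8
    refine h2.trans (mul_le_mul_of_nonneg_right ?_ (Nat.cast_nonneg _))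
    calc (4 : ℝ) ^ r ≤ 16 ^ r := pow_le_pow_left₀ (by norm_num) (by norm_num) r
      _ ≤ 4096 * K ^ 19965 := h16
      _ ≤ 4096 * K ^ 23700 :=
        mul_le_mul_of_nonneg_left (pow_le_pow_right₀ hK1 (by norm_num)) (by norm_num)
  · have h1 : hull hfin.toFinset ⊆ (hfin.toFinset : Set (Fin r → ℤ)) := by
      intro v hv
      rw [Finset.mem_coe, Set.Finite.mem_toFinset]
      refine convexHull_min ?_ (hB.smul 4).conv hv
      rintro _ ⟨x, hx, rfl⟩
      rw [Finset.mem_coe, Set.Finite.mem_toFinset] at hx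
      exact hx
    have h2 := Set.ncard_le_ncard h1 (Finset.finite_toSet _)
    rw [Set.ncard_coe_finset] at h2
    calc ((hull hfin.toFinset).ncard : ℝ) ≤ 1 * hfin.toFinset.card := by rw [one_mul]; exact_mod_cast h2
      _ ≤ _ := mul_le_mul_of_nonneg_right hone (Nat.cast_nonneg _)
  · rw [hcardX]
    have h1 : ((num B 4 : ℕ) : ℝ) ≤ 16 ^ r * num B 1 := by exact_mod_cast hn4
    have h2 : (Z.card : ℝ) ≤ X.card := by exact_mod_cast Finset.card_le_card hZX
    calc ((num B 4 : ℕ) : ℝ) * Nat.card H ≤ (16 ^ r * num B 1) * Nat.card H :=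
          mul_le_mul_of_nonneg_right h1 (Nat.cast_nonneg _)
      _ ≤ (16 ^ r * (K ^ 5 * X.card)) * Nat.card H := by
        refine mul_le_mul_of_nonneg_right (mul_le_mul_of_nonneg_left ?_ (by positivity))
          (Nat.cast_nonneg _)
        exact hnum.trans (mul_le_mul_of_nonneg_left h2 (by positivity))
      _ = 16 ^ r * K ^ 5 * (X.card * Nat.card H) := by ring
      _ ≤ 16 ^ r * K ^ 5 * (K * A.card) := mul_le_mul_of_nonneg_left hD.size (by positivity)
      _ = 16 ^ r * (K ^ 6 * A.card) := by ring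
      _ ≤ (4096 * K ^ 19965) * (K ^ 6 * A.card) := mul_le_mul_of_nonneg_right h16 (by positivity)
      _ = 4096 * K ^ 19971 * A.card := by ring
      _ ≤ 4096 * K ^ 23700 * A.card := by
        refine mul_le_mul_of_nonneg_right ?_ hAr.le
        exact mul_le_mul_of_nonneg_left (pow_le_pow_right₀ hK1 (by norm_num)) (by norm_num)
  · have h1 : {a : Γ | a ∈ A ∧ ∃ x ∈ hfin.toFinset, ∃ h ∈ H, a = (g + ψ p) + (ψ.comp φ) x + h} =
        ((A.filter (fun a => ∃ w ∈ hfin.toFinset, ∃ h ∈ H, a = (g + ψ p) + (ψ.comp φ) w + h) :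
          Finset Γ) : Set Γ) := by
      rw [Finset.coe_filter]
    rw [h1, Set.ncard_coe_finset]
    set A2 := A.filter (fun a => ∃ w ∈ hfin.toFinset, ∃ h ∈ H, a = (g + ψ p) + (ψ.comp φ) w + h)
      with hA2
    have h2 : (A1.card : ℝ) ≤ I.card * A2.card := by exact_mod_cast hp2
    calc (A.card : ℝ) ≤ K * A1.card := hmeet
      _ ≤ K * (I.card * A2.card) := mul_le_mul_of_nonneg_left h2 hK0.le
      _ ≤ K * ((K ^ 3722 * (4096 * K ^ 19965)) * A2.card) := by
        refine mul_le_mul_of_nonneg_left (mul_le_mul_of_nonneg_right ?_ (Nat.cast_nonneg _)) hK0.le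
        exact hIcard.trans (mul_le_mul_of_nonneg_left h16 (by positivity))
      _ = 4096 * K ^ 23688 * A2.card := by ring
      _ ≤ 4096 * K ^ 23700 * A2.card := by
        refine mul_le_mul_of_nonneg_right ?_ (Nat.cast_nonneg _)
        exact mul_le_mul_of_nonneg_left (pow_le_pow_right₀ hK1 (by norm_num)) (by norm_num)

end Pool.Agent.V11270.DS
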