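import Pool.Agent.V11270.DS.C

/-!
# Down-sets, convex sets and products have Kleitman's property
-/

set_option autoImplicit false

namespace Pool.Agent.V11270.DS

open Finset
open scoped Pointwise
open Pool.Agent.Y806.DF

theorem Klei.mono {d : ℕ} {M M' : ℝ} {U : Finset (Fin d → ℤ)} (h : Klei M U) (hM : M ≤ M') :
    Klei M' U :=
  fun s => (h s).trans (mul_le_mul_of_nonneg_right hM (by positivity))

theorem hull_subset_Icc {d : ℕ} {E : Finset (Fin d → ℤ)} {s t : Fin d → ℤ}
    (h : E ⊆ Finset.Icc s t) : hull E ⊆ ((Finset.Icc s t : Finset (Fin d → ℤ)) : Set (Fin d → ℤ)) := by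
  intro v hv
  have h1 : re v ∈ Set.Icc (re s) (re t) := by
    refine convexHull_min ?_ (convex_Icc _ _) hv
    rintro _ ⟨x, hx, rfl⟩
    have hx' := Finset.mem_Icc.1 (h hx)
    exact ⟨fun i => by simpa [re] using hx'.1 i, fun i => by simpa [re] using hx'.2 i⟩
  rw [Finset.mem_coe, Finset.mem_Icc]
  exact ⟨fun i => by simpa [re] using h1.1 i, fun i => by simpa [re] using h1.2 i⟩

/-- down-sets -/
theorem klei_down {d : ℕ} {D : Finset (Fin d → ℤ)} (hD : IsDown D) : Klei 1 D := by
  intro s
  set E := D.filter (fun x => s - x ∈ D) with hE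
  have hEs : E ⊆ Finset.Icc 0 s := by
    intro x hx
    have hx' := Finset.mem_filter.1 hx
    rw [Finset.mem_Icc]
    exact ⟨hD.1 x hx'.1, sub_nonneg.1 (hD.1 _ hx'.2)⟩
  have h1 : (hull E).ncard ≤ (Finset.Icc 0 s).card := by
    have h2 := Set.ncard_le_ncard (hull_subset_Icc hEs) (Finset.finite_toSet _)
    rwa [Set.ncard_coe_finset] at h2
  have h2 : (hull E).ncard * E.card ≤ D.card * D.card :=
    (Nat.mul_le_mul_right _ h1).trans (box_bound hD s)
  rw [one_mul, pow_two]
  exact_mod_cast h2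

/-- the integer points of a convex set -/
theorem klei_convex {d : ℕ} {U : Finset (Fin d → ℤ)} (hU : hull U = (U : Set (Fin d → ℤ))) :
    Klei 1 U := by
  intro s
  set E := U.filter (fun x => s - x ∈ U) with hE
  have h1 : hull E ⊆ (E : Set (Fin d → ℤ)) := by
    intro v hv
    have hvU : v ∈ U := by
      have h2 := hull_mono (Finset.filter_subset (fun x => s - x ∈ U) U) hv
      rw [hU] at h2
      exact h2
    have hvs : s - v ∈ U := by
      have h2 : s - v ∈ hull U := by
        show re (s - v) ∈ convexHull ℝ (re '' (U : Set (Fin d → ℤ)))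
        rw [re_sub]
        have h3 : Convex ℝ {y : Fin d → ℝ | re s - y ∈ convexHull ℝ (re '' (U : Set (Fin d → ℤ)))} := by
          intro x hx y hy a b ha hb hab
          have h4 := convex_convexHull ℝ (re '' (U : Set (Fin d → ℤ))) hx hy ha hb hab
          have e : a • (re s - x) + b • (re s - y) = re s - (a • x + b • y) := by
            rw [smul_sub, smul_sub]
            have e2 : a • re s + b • re s = re s := by rw [← add_smul, hab, one_smul]
            calc a • re s - a • x + (b • re s - b • y) = (a • re s + b • re s) - (a • x + b • y) := by abel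
              _ = _ := by rw [e2]
          rw [e] at h4
          exact h4
        have h5 : convexHull ℝ (re '' (E : Set (Fin d → ℤ))) ⊆
            {y : Fin d → ℝ | re s - y ∈ convexHull ℝ (re '' (U : Set (Fin d → ℤ)))} := by
          refine convexHull_min ?_ h3
          rintro _ ⟨x, hx, rfl⟩
          refine subset_convexHull ℝ _ ⟨s - x, (Finset.mem_filter.1 (Finset.mem_coe.1 hx)).2, ?_⟩
          rw [re_sub]
        exact h5 hv
      rw [hU] at h2
      exact h2
    exact Finset.mem_coe.2 (Finset.mem_filter.2 ⟨hvU, hvs⟩)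
  have h2 : (hull E).ncard ≤ E.card := by
    have h3 := Set.ncard_le_ncard h1 (Finset.finite_toSet _)
    rwa [Set.ncard_coe_finset] at h3
  have h3 : E.card ≤ U.card := Finset.card_le_card (Finset.filter_subset _ _)
  have h4 : (hull E).ncard * E.card ≤ U.card * U.card := Nat.mul_le_mul (h2.trans h3) h3
  rw [one_mul, pow_two]
  exact_mod_cast h4

/-- the product of two sets of integer points -/
def prodSet {a b : ℕ} (U : Finset (Fin a → ℤ)) (V : Finset (Fin b → ℤ)) : Finset (Fin (a + b) → ℤ) :=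
  (U ×ˢ V).image (fun p => Fin.append p.1 p.2)

theorem mem_prodSet {a b : ℕ} {U : Finset (Fin a → ℤ)} {V : Finset (Fin b → ℤ)}
    {z : Fin (a + b) → ℤ} : z ∈ prodSet U V ↔ (fun i => z (Fin.castAdd b i)) ∈ U ∧
      (fun i => z (Fin.natAdd a i)) ∈ V := by
  unfold prodSet
  rw [Finset.mem_image]
  constructor
  · rintro ⟨⟨u, v⟩, h, rfl⟩
    rw [Finset.mem_product] at h
    have e1 : (fun i => (Fin.append u v : Fin (a + b) → ℤ) (Fin.castAdd b i)) = u := by
      funext i; simp
    have e2 : (fun i => (Fin.append u v : Fin (a + b) → ℤ) (Fin.natAdd a i)) = v := by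
      funext i; simp
    show (fun i => (Fin.append u v : Fin (a + b) → ℤ) (Fin.castAdd b i)) ∈ U ∧
      (fun i => (Fin.append u v : Fin (a + b) → ℤ) (Fin.natAdd a i)) ∈ V
    rw [e1, e2]
    exact h
  · rintro ⟨h1, h2⟩
    refine ⟨(fun i => z (Fin.castAdd b i), fun i => z (Fin.natAdd a i)),
      Finset.mem_product.2 ⟨h1, h2⟩, ?_⟩
    funext i
    refine Fin.addCases (fun j => ?_) (fun j => ?_) i
    · simp
    · simp

theorem append_inj {a b : ℕ} : Function.Injective
    (fun p : (Fin a → ℤ) × (Fin b → ℤ) => (Fin.append p.1 p.2 : Fin (a + b) → ℤ)) := by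
  rintro ⟨u, v⟩ ⟨u', v'⟩ h
  have h1 : u = u' := by
    funext i
    have := congrFun h (Fin.castAdd b i)
    simpa using this
  have h2 : v = v' := by
    funext i
    have := congrFun h (Fin.natAdd a i)
    simpa using this
  rw [h1, h2]

theorem card_prodSet {a b : ℕ} (U : Finset (Fin a → ℤ)) (V : Finset (Fin b → ℤ)) :
    (prodSet U V).card = U.card * V.card := by
  unfold prodSet
  rw [Finset.card_image_of_injective _ append_inj, Finset.card_product]

theorem hull_prod {a b : ℕ} (E : Finset (Fin a → ℤ)) (F : Finset (Fin b → ℤ)) :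
    (hull (prodSet E F)).ncard ≤ (hull E).ncard * (hull F).ncard := by
  rw [← Set.ncard_prod]
  refine Set.ncard_le_ncard_of_injOn
    (fun z => ((fun i => z (Fin.castAdd b i), fun i => z (Fin.natAdd a i)) :
      (Fin a → ℤ) × (Fin b → ℤ))) ?_ ?_ ((hull_finite E).prod (hull_finite F))
  · intro z hz
    constructor
    · show re (fun i => z (Fin.castAdd b i)) ∈ convexHull ℝ (re '' (E : Set (Fin a → ℤ)))
      have h3 : Convex ℝ {y : Fin (a + b) → ℝ | (fun i => y (Fin.castAdd b i)) ∈
          convexHull ℝ (re '' (E : Set (Fin a → ℤ)))} :=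
        (convex_convexHull ℝ (re '' (E : Set (Fin a → ℤ)))).linear_preimage
          (LinearMap.funLeft ℝ ℝ (Fin.castAdd b))
      have h5 : convexHull ℝ (re '' (prodSet E F : Set (Fin (a + b) → ℤ))) ⊆
          {y : Fin (a + b) → ℝ | (fun i => y (Fin.castAdd b i)) ∈
            convexHull ℝ (re '' (E : Set (Fin a → ℤ)))} := by
        refine convexHull_min ?_ h3
        rintro _ ⟨x, hx, rfl⟩
        exact subset_convexHull ℝ _ ⟨_, (mem_prodSet.1 (Finset.mem_coe.1 hx)).1, rfl⟩
      exact h5 hz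
    · show re (fun i => z (Fin.natAdd a i)) ∈ convexHull ℝ (re '' (F : Set (Fin b → ℤ)))
      have h3 : Convex ℝ {y : Fin (a + b) → ℝ | (fun i => y (Fin.natAdd a i)) ∈
          convexHull ℝ (re '' (F : Set (Fin b → ℤ)))} :=
        (convex_convexHull ℝ (re '' (F : Set (Fin b → ℤ)))).linear_preimage
          (LinearMap.funLeft ℝ ℝ (Fin.natAdd a))
      have h5 : convexHull ℝ (re '' (prodSet E F : Set (Fin (a + b) → ℤ))) ⊆
          {y : Fin (a + b) → ℝ | (fun i => y (Fin.natAdd a i)) ∈
            convexHull ℝ (re '' (F : Set (Fin b → ℤ)))} := by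
        refine convexHull_min ?_ h3
        rintro _ ⟨x, hx, rfl⟩
        exact subset_convexHull ℝ _ ⟨_, (mem_prodSet.1 (Finset.mem_coe.1 hx)).2, rfl⟩
      exact h5 hz
  · intro z _ z' _ h
    funext i
    refine Fin.addCases (fun j => ?_) (fun j => ?_) i
    · exact congrFun (congrArg Prod.fst h) j
    · exact congrFun (congrArg Prod.snd h) j

theorem klei_prod {a b : ℕ} {M N : ℝ} {U : Finset (Fin a → ℤ)} {V : Finset (Fin b → ℤ)}
    (hM : 0 ≤ M) (hU : Klei M U) (hV : Klei N V) : Klei (M * N) (prodSet U V) := by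
  classical
  intro s
  set s₁ : Fin a → ℤ := fun i => s (Fin.castAdd b i) with hs₁
  set s₂ : Fin b → ℤ := fun i => s (Fin.natAdd a i) with hs₂
  have e : (prodSet U V).filter (fun u => s - u ∈ prodSet U V) =
      prodSet (U.filter (fun u => s₁ - u ∈ U)) (V.filter (fun u => s₂ - u ∈ V)) := by
    ext z
    simp only [Finset.mem_filter, mem_prodSet]
    constructor
    · rintro ⟨⟨h1, h2⟩, h3, h4⟩
      exact ⟨⟨h1, h3⟩, h2, h4⟩
    · rintro ⟨⟨h1, h3⟩, h2, h4⟩
      exact ⟨⟨h1, h2⟩, h3, h4⟩
  rw [e, card_prodSet, card_prodSet]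
  have h1 : ((hull (prodSet (U.filter (fun u => s₁ - u ∈ U)) (V.filter (fun u => s₂ - u ∈ V)))).ncard : ℝ) ≤
      (hull (U.filter (fun u => s₁ - u ∈ U))).ncard * (hull (V.filter (fun u => s₂ - u ∈ V))).ncard := by
    exact_mod_cast hull_prod (U.filter (fun u => s₁ - u ∈ U)) (V.filter (fun u => s₂ - u ∈ V))
  have h2 := hU s₁
  have h3 := hV s₂
  push_cast
  calc _ ≤ ((hull (U.filter (fun u => s₁ - u ∈ U))).ncard * (hull (V.filter (fun u => s₂ - u ∈ V))).ncard : ℝ) *
        ((U.filter (fun u => s₁ - u ∈ U)).card * (V.filter (fun u => s₂ - u ∈ V)).card) :=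
        mul_le_mul_of_nonneg_right h1 (by positivity)
    _ = ((hull (U.filter (fun u => s₁ - u ∈ U))).ncard * (U.filter (fun u => s₁ - u ∈ U)).card : ℝ) *
        ((hull (V.filter (fun u => s₂ - u ∈ V))).ncard * (V.filter (fun u => s₂ - u ∈ V)).card) := by ring
    _ ≤ (M * (U.card : ℝ) ^ 2) * (N * (V.card : ℝ) ^ 2) :=
        mul_le_mul h2 h3 (by positivity) (by positivity)
    _ = M * N * ((U.card : ℝ) * V.card) ^ 2 := by ring

end Pool.Agent.V11270.DS
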